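import Pool.Agent.H992.SF.GDefs

/-!
# Arbitrary sequences of families (SG14)
-/

set_option autoImplicit false
open MeasureTheory Filter Topology Complex ProbabilityTheory
open scoped ContDiff ENNReal

namespace Pool.Agent.H585.SG

open Pool.Agent.W745.RW (TF)
open Pool.Agent.N661.BR (MW lin shift IsStationary IsErgodic IsRandomWave)
open Pool.Agent.N661.BH (HP area frames loc mv LocalLaws)
open Pool.Agent.N814.BHM (P mass)
open Pool.Agent.N814.BHASM (Hyp ex)
open Pool.Agent.H992.SF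
open Pool.Agent.H992.LB (eγ eX SX nn fs)

lemma hyp_comp {Ω : Set ℂ} {lam : ℕ → ℝ} {u : ℕ → ℂ → ℝ} (H : Hyp Ω lam u) {r : ℕ → ℕ}
    (hr : Tendsto r atTop atTop) : Hyp Ω (fun n => lam (r n)) (fun n => u (r n)) where
  op := H.op
  sub := H.sub
  ne := H.ne
  int := H.int
  pos := fun n => H.pos (r n)
  lim := H.lim.comp hr
  sm := fun n => H.sm (r n)
  eq := fun n => H.eq (r n)
  qe := fun φ a1 k => (H.qe φ a1 k).comp hr

theorem gen (h1 : S_SUB) (h2 : S_CLS) (h3 : S_ALL2) : S_GEN := by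
  intro d Ω lam u hd hH γ hγ hγ2 U hU hU2 κ hκ hB ψ hψ τ
  refine tendsto_of_subseq_tendsto fun ns hns => ?_
  obtain ⟨ms, hms, hst⟩ := h1 d lam ns hns
  refine ⟨ms, ?_⟩
  have hH' : ∀ i, Hyp Ω (fun n => lam i (ns (ms n))) (fun n => u i (ns (ms n))) :=
    fun i => hyp_comp (hH i) hms
  refine h3 d Ω (fun i n => lam i (ns (ms n))) (fun i n => u i (ns (ms n))) hd hH' hst γ hγ hγ2 κ
    (fun i j hij => (hκ i j hij).comp hms) (fun a σ hσ => ?_) ψ hψ τ
  refine h2 d Ω (fun i n => lam i (ns (ms n))) (fun i n => u i (ns (ms n))) hd hH' hst γ hγ hγ2 U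
    hU hU2 (Finset.univ.filter fun i => κ i = a) ?_ σ hσ
  obtain ⟨C, hC⟩ := hB a
  refine ⟨C, fun n c σ' a1 a2 ε hε => ?_⟩
  exact hms.eventually (hC n c σ' a1 a2 ε hε)

end Pool.Agent.H585.SG
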